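import Pool.Agent.S19761

/-!
# The central limit theorem for the random Euclidean minimum matching length

The statement in the words of the problem file: `n` even, `n` independent uniform points in the unit
square of the Euclidean plane, perfect matchings as sets of unordered pairs, the total Euclidean length, the
minimum over all perfect matchings, and Mathlib's convergence in distribution along the even integers.
The constants do not depend on the probability spaces. The proof uses the proof of the frozen
statement `S19761`, where matchings are fixed point free involutions of the first `2k` of infinitely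
many points.
-/

set_option autoImplicit false
open MeasureTheory ProbabilityTheory Filter Topology Set

namespace Pool.Agent.Results.MP_fb8750_pr.MinimumMatchingCLT

universe u

noncomputable section

/-- The Euclidean plane. -/
abbrev Plane : Type := EuclideanSpace ℝ (Fin 2)

/-- The unit square `[0,1]²`. -/
def unitSquare : Set Plane := {x | x 0 ∈ Icc (0 : ℝ) 1 ∧ x 1 ∈ Icc (0 : ℝ) 1}

/-- A perfect matching of `Fin n`: a set of unordered pairs of distinct indices such that every
index belongs to exactly one of the pairs. -/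
structure IsPerfectMatching {n : ℕ} (π : Finset (Sym2 (Fin n))) : Prop where
  distinct : ∀ e ∈ π, ¬ e.IsDiag
  unique : ∀ i, ∃! e, e ∈ π ∧ i ∈ e

/-- The Euclidean distance of the two points with indices in an unordered pair. -/
def pairLength {n : ℕ} (x : Fin n → Plane) (e : Sym2 (Fin n)) : ℝ :=
  Sym2.lift ⟨fun i j => dist (x i) (x j), fun i j => dist_comm (x i) (x j)⟩ e

/-- The total length of a set of unordered pairs. -/
def totalLength {n : ℕ} (x : Fin n → Plane) (π : Finset (Sym2 (Fin n))) : ℝ :=
  ∑ e ∈ π, pairLength x e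

/-- The minimum matching length of `n` points. -/
def minLength {n : ℕ} (x : Fin n → Plane) : ℝ :=
  sInf {L | ∃ π : Finset (Sym2 (Fin n)), IsPerfectMatching π ∧ totalLength x π = L}

/-! ### Matchings and fixed point free involutions -/

/-- fixed point free involutions -/
abbrev Inv (n : ℕ) : Type := {σ : Equiv.Perm (Fin n) // (∀ i, σ (σ i) = i) ∧ ∀ i, σ i ≠ i}

/-- the matching of an involution -/
def ofInv {n : ℕ} (σ : Inv n) : Finset (Sym2 (Fin n)) :=
  Finset.univ.image fun i => s(i, σ.1 i)

theorem mk_eq {n : ℕ} (σ : Inv n) (i j : Fin n) :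
    s(j, σ.1 j) = s(i, σ.1 i) ↔ j = i ∨ j = σ.1 i := by
  rw [Sym2.eq_iff]
  constructor
  · rintro (⟨h, -⟩ | ⟨h, -⟩)
    · exact Or.inl h
    · exact Or.inr h
  · rintro (h | h)
    · exact Or.inl ⟨h, by rw [h]⟩
    · exact Or.inr ⟨h, by rw [h, σ.2.1]⟩

theorem isPerfectMatching_ofInv {n : ℕ} (σ : Inv n) : IsPerfectMatching (ofInv σ) := by
  refine ⟨fun e he => ?_, fun i => ⟨s(i, σ.1 i), ⟨?_, Sym2.mem_mk_left _ _⟩, ?_⟩⟩
  · obtain ⟨i, -, rfl⟩ := Finset.mem_image.1 he
    rw [Sym2.mk_isDiag_iff]
    exact fun h => σ.2.2 i h.symm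
  · exact Finset.mem_image.2 ⟨i, Finset.mem_univ _, rfl⟩
  · rintro e ⟨he, hi⟩
    obtain ⟨j, -, rfl⟩ := Finset.mem_image.1 he
    rw [mk_eq]
    rcases Sym2.mem_iff.1 hi with h | h
    · exact Or.inl h.symm
    · right
      rw [h, σ.2.1]

theorem totalLength_ofInv {n : ℕ} (x : Fin n → Plane) (σ : Inv n) :
    totalLength x (ofInv σ) = (1 / 2 : ℝ) * ∑ i, dist (x i) (x (σ.1 i)) := by
  classical
  have h : ∑ i, dist (x i) (x (σ.1 i)) = ∑ i : Fin n, pairLength x (s(i, σ.1 i)) := rfl
  rw [h, Finset.sum_comp (pairLength x) (fun i => s(i, σ.1 i)), totalLength, Finset.mul_sum]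
  refine Finset.sum_congr rfl fun e he => ?_
  obtain ⟨i, -, rfl⟩ := Finset.mem_image.1 he
  have hc : (Finset.univ.filter fun j => s(j, σ.1 j) = s(i, σ.1 i)) = {i, σ.1 i} := by
    ext j
    simp only [Finset.mem_filter, Finset.mem_univ, true_and, Finset.mem_insert,
      Finset.mem_singleton]
    exact mk_eq σ i j
  rw [hc, Finset.card_pair (fun h => σ.2.2 i h.symm), nsmul_eq_mul]
  push_cast
  ring

theorem exists_inv {n : ℕ} {π : Finset (Sym2 (Fin n))} (h : IsPerfectMatching π) :
    ∃ σ : Inv n, ofInv σ = π := by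
  choose e he hu using h.unique
  have hm : ∀ i, i ∈ e i := fun i => (he i).2
  let f : Fin n → Fin n := fun i => Sym2.Mem.other (hm i)
  have hf : ∀ i, s(i, f i) = e i := fun i => Sym2.other_spec (hm i)
  have hee : ∀ i j, j ∈ e i → e j = e i := fun i j hj => (hu j (e i) ⟨(he i).1, hj⟩).symm
  have hinv : ∀ i, f (f i) = i := by
    intro i
    have h1 : f i ∈ e i := by rw [← hf i]; exact Sym2.mem_mk_right _ _
    have h2 : s(f i, f (f i)) = s(i, f i) := by rw [hf, hf, hee i _ h1]
    rw [Sym2.eq_swap, Sym2.eq_iff] at h2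
    rcases h2 with ⟨h3, -⟩ | ⟨h3, h4⟩
    · exact h3
    · rw [h3, h4]
  have hne : ∀ i, f i ≠ i := by
    intro i hi
    have := h.distinct (e i) (he i).1
    rw [← hf i, Sym2.mk_isDiag_iff] at this
    exact this hi.symm
  refine ⟨⟨Function.Involutive.toPerm f hinv, hinv, hne⟩, ?_⟩
  ext e'
  constructor
  · intro h'
    obtain ⟨i, -, rfl⟩ := Finset.mem_image.1 h'
    have : s(i, f i) ∈ π := by rw [hf i]; exact (he i).1
    exact this
  · intro h'
    induction e' using Sym2.ind with
    | _ a b =>
      refine Finset.mem_image.2 ⟨a, Finset.mem_univ _, ?_⟩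
      have h1 : e a = s(a, b) := (hu a _ ⟨h', Sym2.mem_mk_left _ _⟩).symm
      rw [← h1]
      exact hf a

theorem minLength_eq {n : ℕ} (x : Fin n → Plane) :
    minLength x = ⨅ σ : Inv n, (1 / 2 : ℝ) * ∑ i, dist (x i) (x (σ.1 i)) := by
  unfold minLength iInf
  congr 1
  ext L
  constructor
  · rintro ⟨π, hπ, rfl⟩
    obtain ⟨σ, rfl⟩ := exists_inv hπ
    exact ⟨σ, (totalLength_ofInv x σ).symm⟩
  · rintro ⟨σ, rfl⟩
    exact ⟨ofInv σ, isPerfectMatching_ofInv σ, totalLength_ofInv x σ⟩

/-- For an even number of points there are perfect matchings and the minimum is attained. -/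
theorem minLength_isLeast {n : ℕ} (hn : Even n) (x : Fin n → Plane) :
    IsLeast {L | ∃ π : Finset (Sym2 (Fin n)), IsPerfectMatching π ∧ totalLength x π = L}
      (minLength x) := by
  have hfin : {L | ∃ π : Finset (Sym2 (Fin n)), IsPerfectMatching π ∧
      totalLength x π = L}.Finite := by
    refine (Set.finite_range (totalLength x)).subset ?_
    rintro L ⟨π, -, rfl⟩
    exact ⟨π, rfl⟩
  have hne : {L | ∃ π : Finset (Sym2 (Fin n)), IsPerfectMatching π ∧
      totalLength x π = L}.Nonempty := by
    have h2 : ∀ i : Fin n, Fin.rev i ≠ i := by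
      intro i hi
      have h3 := congrArg Fin.val hi
      rw [Fin.val_rev] at h3
      have h4 := i.2
      obtain ⟨k, hk⟩ := hn
      omega
    exact ⟨_, ofInv ⟨Fin.revPerm, fun i => by simp, fun i => h2 i⟩, isPerfectMatching_ofInv _, rfl⟩
  exact ⟨hne.csInf_mem hfin, fun L hL => csInf_le hfin.bddBelow hL⟩

/-! ### The law of a uniform point -/

/-- coordinates -/
def co (p : Plane) : ℝ × ℝ := (p 0, p 1)

theorem co_mp : MeasurePreserving co (volume : Measure Plane) (volume : Measure (ℝ × ℝ)) :=
  (volume_preserving_finTwoArrow ℝ).comp (PiLp.volume_preserving_ofLp (Fin 2))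

theorem measurable_co : Measurable co := co_mp.measurable

theorem unitSquare_eq : unitSquare = co ⁻¹' (Icc (0 : ℝ) 1 ×ˢ Icc (0 : ℝ) 1) := rfl

theorem measurableSet_unitSquare : MeasurableSet unitSquare := by
  rw [unitSquare_eq]
  exact measurable_co (measurableSet_Icc.prod measurableSet_Icc)

theorem volume_unitSquare : volume unitSquare = 1 := by
  rw [unitSquare_eq, co_mp.measure_preimage
    (measurableSet_Icc.prod measurableSet_Icc).nullMeasurableSet, Measure.volume_eq_prod,
    Measure.prod_prod, Real.volume_Icc]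
  norm_num

/-- the uniform distribution on the unit square -/
def nu : Measure Plane := ProbabilityTheory.cond volume unitSquare

theorem nu_eq : nu = volume.restrict unitSquare := by
  unfold nu ProbabilityTheory.cond
  rw [volume_unitSquare, inv_one, one_smul]

instance : IsProbabilityMeasure nu :=
  cond_isProbabilityMeasure_of_finite (by rw [volume_unitSquare]; exact one_ne_zero)
    (by rw [volume_unitSquare]; exact ENNReal.one_ne_top)

theorem map_co : nu.map co = volume.restrict (Icc (0 : ℝ) 1 ×ˢ Icc (0 : ℝ) 1) := by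
  rw [nu_eq, unitSquare_eq]
  exact (co_mp.restrict_preimage (measurableSet_Icc.prod measurableSet_Icc)).map_eq

theorem dist_eq (p q : Plane) :
    dist p q = √(((co p).1 - (co q).1) ^ 2 + ((co p).2 - (co q).2) ^ 2) := by
  rw [EuclideanSpace.dist_eq, Fin.sum_univ_two, Real.dist_eq, Real.dist_eq, sq_abs, sq_abs]
  rfl

theorem measurable_minLength (n : ℕ) : Measurable (minLength : (Fin n → Plane) → ℝ) := by
  have h : (minLength : (Fin n → Plane) → ℝ) =
      fun x => ⨅ σ : Inv n, (1 / 2 : ℝ) * ∑ i, dist (x i) (x (σ.1 i)) :=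
    funext minLength_eq
  rw [h]
  refine Measurable.iInf fun σ => ?_
  fun_prop

/-- the law of the minimum matching length of `n` uniform points -/
def lawM (n : ℕ) : Measure ℝ := (Measure.pi fun _ : Fin n => nu).map minLength

theorem step : ∃ a b : ℕ → ℝ, (∀ k, 0 < b k) ∧
    ∀ f : BoundedContinuousFunction ℝ ℝ,
      Tendsto (fun k : ℕ => ∫ m, f ((m - a k) / b k) ∂(lawM (2 * k))) atTop
        (𝓝 (∫ x, f x ∂(gaussianReal 0 1))) := by
  obtain ⟨a, b, hb, hf⟩ := Pool.Agent.S19761.result (ℕ → Plane) (Measure.infinitePi fun _ : ℕ => nu)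
    (fun i ω => co (ω i)) (fun i => measurable_co.comp (measurable_pi_apply i))
    (iIndepFun_infinitePi (X := fun _ : ℕ => co) fun _ => measurable_co)
    (fun i => by
      have h1 : (Measure.infinitePi fun _ : ℕ => nu).map (fun ω : ℕ → Plane => co (ω i)) =
          ((Measure.infinitePi fun _ : ℕ => nu).map (fun ω : ℕ → Plane => ω i)).map co := by
        rw [Measure.map_map measurable_co (measurable_pi_apply i)]
        rfl
      rw [h1, Measure.infinitePi_map_eval, map_co])
  refine ⟨a, b, hb, fun f => (hf f).congr fun k => ?_⟩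
  have hlaw : lawM (2 * k) = (Measure.infinitePi fun _ : ℕ => nu).map
      (fun ω : ℕ → Plane => minLength fun i : Fin (2 * k) => ω i.val) := by
    unfold lawM
    rw [← Measure.infinitePi_eq_pi, ← Measure.map_infinitePi_infinitePi_of_inj
      (P := fun _ : ℕ => nu) (f := fun i : Fin (2 * k) => i.val) Fin.val_injective,
      Measure.map_map (measurable_minLength _) (by fun_prop)]
    rfl
  have hg : Measurable fun ω : ℕ → Plane => minLength fun i : Fin (2 * k) => ω i.val :=
    (measurable_minLength _).comp (by fun_prop)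
  rw [hlaw, integral_map hg.aemeasurable (Measurable.aestronglyMeasurable (by fun_prop))]
  refine integral_congr_ae (Eventually.of_forall fun ω => ?_)
  show f _ = f _
  rw [minLength_eq]
  simp only [dist_eq]

theorem aemeasurable_unif {Ω : Type*} [MeasurableSpace Ω] {P : Measure Ω} {X : Ω → Plane}
    (h : pdf.IsUniform X unitSquare P volume) : AEMeasurable X P :=
  h.aemeasurable (by rw [volume_unitSquare]; exact one_ne_zero)
    (by rw [volume_unitSquare]; exact ENNReal.one_ne_top)

theorem map_minLength {Ω : Type*} [MeasurableSpace Ω] {P : Measure Ω} {n : ℕ}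
    {X : Fin n → Ω → Plane} (hi : iIndepFun X P)
    (hu : ∀ i, pdf.IsUniform (X i) unitSquare P volume) :
    P.map (fun ω => minLength fun i => X i ω) = lawM n := by
  have hX : AEMeasurable (fun ω i => X i ω) P :=
    aemeasurable_pi_iff.2 fun i => aemeasurable_unif (hu i)
  have h1 : P.map (fun ω i => X i ω) = Measure.pi fun _ : Fin n => nu := by
    rw [hi.map_fun_eq_pi_map fun i => aemeasurable_unif (hu i)]
    congr 1
    exact funext fun i => hu i
  unfold lawM
  rw [← h1, AEMeasurable.map_map_of_aemeasurable (measurable_minLength n).aemeasurable hX]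
  rfl

theorem tendsto_half : Tendsto (fun n : {n : ℕ // Even n} => (n : ℕ) / 2) atTop atTop := by
  refine tendsto_atTop.2 fun k => ?_
  filter_upwards [eventually_ge_atTop (⟨2 * k, even_two_mul k⟩ : {n : ℕ // Even n})] with n hn
  have h : 2 * k ≤ (n : ℕ) := hn
  omega

/-- **Central limit theorem for the Euclidean minimum matching.** There are real numbers `a n` and
`b n > 0` (for even `n`) such that, whenever for every even `n` the random points `X n 0, ..., X n (n - 1)`
are independent and uniformly distributed on the unit square, `(M n - a n) / b n` converges in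
distribution to a standard normal random variable as `n` tends to infinity through even integers. -/
theorem result : ∃ a b : {n : ℕ // Even n} → ℝ, (∀ n, 0 < b n) ∧
    ∀ (Ω : {n : ℕ // Even n} → Type u) [∀ n, MeasurableSpace (Ω n)]
      (P : ∀ n, Measure (Ω n)) [∀ n, IsProbabilityMeasure (P n)]
      (X : ∀ n : {n : ℕ // Even n}, Fin n → Ω n → Plane),
      (∀ n, iIndepFun (X n) (P n)) →
      (∀ n i, pdf.IsUniform (X n i) unitSquare (P n) volume) →
      TendstoInDistribution (fun n ω => (minLength (fun i => X n i ω) - a n) / b n) atTop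
        (id : ℝ → ℝ) P (gaussianReal 0 1) := by
  obtain ⟨a, b, hb, hf⟩ := step
  refine ⟨fun n => a ((n : ℕ) / 2), fun n => b ((n : ℕ) / 2), fun n => hb _, ?_⟩
  intro Ω _ P _ X hi hu
  have hm : ∀ n : {n : ℕ // Even n}, AEMeasurable (fun ω => minLength fun i => X n i ω) (P n) :=
    fun n => (measurable_minLength n).comp_aemeasurable
      (aemeasurable_pi_iff.2 fun i => aemeasurable_unif (hu n i))
  have hm' : ∀ n : {n : ℕ // Even n}, AEMeasurable
      (fun ω => (minLength (fun i => X n i ω) - a ((n : ℕ) / 2)) / b ((n : ℕ) / 2)) (P n) :=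
    fun n => ((hm n).sub_const _).div_const _
  refine ⟨hm', aemeasurable_id, ?_⟩
  rw [ProbabilityMeasure.tendsto_iff_forall_integral_tendsto]
  intro f
  have hlim : ∫ x, f x ∂((gaussianReal 0 1).map (id : ℝ → ℝ)) = ∫ x, f x ∂(gaussianReal 0 1) := by
    rw [Measure.map_id]
  have hseq : ∀ n : {n : ℕ // Even n},
      ∫ x, f x ∂((P n).map
        (fun ω => (minLength (fun i => X n i ω) - a ((n : ℕ) / 2)) / b ((n : ℕ) / 2))) =
      ∫ m, f ((m - a ((n : ℕ) / 2)) / b ((n : ℕ) / 2)) ∂(lawM (2 * ((n : ℕ) / 2))) := by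
    intro n
    have hn : 2 * ((n : ℕ) / 2) = n := by
      obtain ⟨k, hk⟩ := n.2
      omega
    rw [hn, ← map_minLength (hi n) (hu n), integral_map (hm' n) (by fun_prop),
      integral_map (hm n) (Measurable.aestronglyMeasurable (by fun_prop))]
  show Tendsto (fun n : {n : ℕ // Even n} => ∫ x, f x ∂((P n).map
      (fun ω => (minLength (fun i => X n i ω) - a ((n : ℕ) / 2)) / b ((n : ℕ) / 2)))) atTop
    (𝓝 (∫ x, f x ∂((gaussianReal 0 1).map (id : ℝ → ℝ))))
  rw [hlim]
  exact ((hf f).comp tendsto_half).congr fun n => (hseq n).symm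

end

end Pool.Agent.Results.MP_fb8750_pr.MinimumMatchingCLT
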